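import Pool.Agent.H40.LS.PFinal

/-!
# Randomised algorithms with several passes which certify the length of an increasing subsequence

`PassAlg p s` (deterministic algorithms with `p` passes and at most `2 ^ s` memory states, in each of
which at most `s` elements of the stream are kept; the output is certified by an increasing
subsequence every element of which is, in one of the passes, in the memory when the next one is
read) is defined in `Pool/Agent/H40/LS/PModel.lean`; a randomised algorithm is a random
deterministic one.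
-/

open MeasureTheory

namespace Pool.Agent.Results.MP_375afe_lc.LinkedMultiPass

open H40.LS

/-- For every `δ > 0` there is `γ > 0` such that for all large `n` every randomised algorithm of this
kind with `p ≤ n ^ γ` passes and `s ≤ n ^ (1/3 - δ)` bits of memory fails on some stream of length
`n` with values in `{1, ..., n ^ 2}`: with probability at least `1 - n ^ (-γ)` its output is smaller
than the length of the longest increasing subsequence divided by `n ^ γ`. -/
theorem result (δ : ℝ) (hδ : 0 < δ) : ∃ γ : ℝ, 0 < γ ∧ ∃ n₀ : ℕ, ∀ n : ℕ, n₀ ≤ n → ∀ p s : ℕ,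
    (p : ℝ) ≤ (n : ℝ) ^ γ → (s : ℝ) ≤ (n : ℝ) ^ (1 / 3 - δ) →
    ∀ (Ω : Type) [MeasurableSpace Ω] (μ : Measure Ω) [IsProbabilityMeasure μ]
    (𝒜 : Ω → PassAlg p s), (∀ l, Measurable fun ω => (𝒜 ω).out l) →
    ∃ l : List ℕ, l.length = n ∧ (∀ x ∈ l, 1 ≤ x ∧ x ≤ n ^ 2) ∧
      μ.real {ω | (LIS l : ℝ) ≤ (n : ℝ) ^ γ * (𝒜 ω).out l} ≤ (n : ℝ) ^ (-γ) :=
  pmain δ hδ

end Pool.Agent.Results.MP_375afe_lc.LinkedMultiPass
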