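import Pool.Agent.H40.LS.Main
import Pool.Agent.H40.LS.Link
import Pool.Agent.H40.LS.Sim

/-!
# Randomised one-pass algorithms which certify the length of an increasing subsequence

The two kinds of algorithms `LinkAlg` (at most `s` elements of the stream are kept, the output is
certified by an increasing subsequence each element of which is in the memory when the next one is
read) and `PairAlg` (at most `s` certified pairs are stored) are defined in
`Pool/Agent/H40/LS/Model.lean`; a randomised algorithm is a random deterministic one.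
-/

open MeasureTheory

namespace Pool.Agent.Results.MP_375afe_lc.LinkedOnePass

open H40.LS

/-- For every `δ > 0` there is `γ > 0` such that for all large `n` every randomised one-pass
algorithm of one of the two kinds with `s ≤ n ^ (1/2 - δ)` fails on some stream of length `n` with
values in `{1, ..., n ^ 2}`: with probability at least `1 - n ^ (-γ)` its output is smaller than the
length of the longest increasing subsequence divided by `n ^ γ`. -/
theorem result (δ : ℝ) (hδ : 0 < δ) : ∃ γ : ℝ, 0 < γ ∧ ∃ n₀ : ℕ, ∀ n : ℕ, n₀ ≤ n → ∀ s : ℕ,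
    (s : ℝ) ≤ (n : ℝ) ^ (1 / 2 - δ) →
    ∀ (Ω : Type) [MeasurableSpace Ω] (μ : Measure Ω) [IsProbabilityMeasure μ],
    (∀ 𝒜 : Ω → LinkAlg s, (∀ l, Measurable fun ω => (𝒜 ω).out l) →
      ∃ l : List ℕ, l.length = n ∧ (∀ x ∈ l, 1 ≤ x ∧ x ≤ n ^ 2) ∧
        μ.real {ω | (LIS l : ℝ) ≤ (n : ℝ) ^ γ * (𝒜 ω).out l} ≤ (n : ℝ) ^ (-γ)) ∧
    (∀ 𝒜 : Ω → PairAlg s, (∀ l, Measurable fun ω => (𝒜 ω).out l) →
      ∃ l : List ℕ, l.length = n ∧ (∀ x ∈ l, 1 ≤ x ∧ x ≤ n ^ 2) ∧
        μ.real {ω | (LIS l : ℝ) ≤ (n : ℝ) ^ γ * (𝒜 ω).out l} ≤ (n : ℝ) ^ (-γ)) := by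
  obtain ⟨γ, hγ, n₀, h⟩ := main δ hδ
  refine ⟨γ, hγ, n₀, fun n hn s hs Ω _ μ _ => ⟨fun 𝒜 hm => ?_, fun 𝒜 hm => ?_⟩⟩
  · exact h n hn s hs Ω μ (fun ω => (𝒜 ω).out) (fun ω => (𝒜 ω).cert) hm
  · exact h n hn s hs Ω μ (fun ω => (𝒜 ω).out) (fun ω => (𝒜 ω).cert) hm

end Pool.Agent.Results.MP_375afe_lc.LinkedOnePass
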