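import Pool.Agent.H40.OS.Main1

/-!
# Randomised one-pass algorithms with one-sided error

`Alg p s` (deterministic algorithms with `p` passes and at most `2 ^ s` memory states, with no other
restriction) is defined in `Pool/Agent/H40/OS/Model.lean`; a randomised algorithm is a random
deterministic one.
-/

open MeasureTheory

namespace Pool.Agent.Results.MP_375afe_lc.OneSidedOnePass

open H40.LS H40.OS

/-- For every `δ > 0` there is `γ > 0` such that for all large `n` every randomised one-pass
algorithm with `s ≤ n ^ (1/2 - δ)` bits of memory which overestimates the length of the longest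
increasing subsequence with probability at most `exp (-n ^ (1 - γ))` (for every stream of length `n`
with values in `{1, ..., n ^ 4}`; in particular every algorithm whose output is never too large)
fails on some such stream: with probability at least `1 - n ^ (-γ)` its output is smaller than the
length of the longest increasing subsequence divided by `n ^ γ`. -/
theorem result (δ : ℝ) (hδ : 0 < δ) : ∃ γ : ℝ, 0 < γ ∧ ∃ n₀ : ℕ, ∀ n : ℕ, n₀ ≤ n → ∀ s : ℕ,
    (s : ℝ) ≤ (n : ℝ) ^ (1 / 2 - δ) → ∀ (Ω : Type) [MeasurableSpace Ω] (μ : Measure Ω)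
    [IsProbabilityMeasure μ] (𝒜 : Ω → Alg 1 s), (∀ l, Measurable fun ω => (𝒜 ω).out l) →
    (∀ l : List ℕ, l.length = n → (∀ x ∈ l, 1 ≤ x ∧ x ≤ n ^ 4) →
      μ.real {ω | (LIS l : ℝ) < (𝒜 ω).out l} ≤ Real.exp (-(n : ℝ) ^ (1 - γ))) →
    ∃ l : List ℕ, l.length = n ∧ (∀ x ∈ l, 1 ≤ x ∧ x ≤ n ^ 4) ∧
      μ.real {ω | (LIS l : ℝ) ≤ (n : ℝ) ^ γ * (𝒜 ω).out l} ≤ (n : ℝ) ^ (-γ) :=
  main1 δ hδ

end Pool.Agent.Results.MP_375afe_lc.OneSidedOnePass
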